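import Pool.Agent.Lib.MP_c57e60_co.Main

set_option autoImplicit false

namespace Pool.Agent.Results.MP_c57e60_co.Unbounded

open Pool.Agent.MP_c57e60_co

/-- For every `k` there is a finite simple 3-connected graph all of whose shortest cycle covers
(and there is at least one) contain an edge lying in more than `k` of their cycles. -/
theorem result : ∀ k : ℕ, ∃ (V : Type) (_ : Fintype V) (G : SimpleGraph V), ThreeConnected G ∧
    (∃ (n : ℕ) (C : Fin n → G.Subgraph), IsShortestCycleCover C) ∧
    ∀ (n : ℕ) (C : Fin n → G.Subgraph), IsShortestCycleCover C →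
      ∃ e ∈ G.edgeSet, k < edgeMult C e :=
  main

end Pool.Agent.Results.MP_c57e60_co.Unbounded
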